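import Pool.Agent.H93.BL.Targets

/-!
Wandering in interval systems (module A2 of bl_modules).
-/

namespace Pool.Agent.H59.BL.A2

open Set Pool.Agent.H93.BL

variable {κ : Type}

lemma pow_mul_self (n : ℕ) : ((-1 : ℝ)) ^ n * (-1) ^ n = 1 := by
  rw [← mul_pow]; norm_num

lemma chain_one (S : HoleSys κ) (z z' : κ × ℝ) : S.chain 1 z z' ↔ S.st z z' := by
  constructor
  · rintro ⟨y, hy, h⟩
    have h' : y = z' := h
    exact h' ▸ hy
  · intro h
    exact ⟨z', h, rfl⟩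

/-- the last step of a chain -/
lemma chain_last (hA : T_A1a) (S : HoleSys κ) (n : ℕ) (z z' : κ × ℝ) (h : S.chain (n + 1) z z') :
    ∃ y, S.chain n z y ∧ S.st y z' := by
  obtain ⟨y, h1, h2⟩ := (hA κ S n 1 z z').1 h
  exact ⟨y, h1, (chain_one S y z').1 h2⟩

/-- all chains from the interval end in one interval -/
lemma step1 (hB : T_A1b) (hD : T_A1d) (S : HoleSys κ) (k : κ) (t ρ : ℝ) (hρ : 0 < ρ) (n : ℕ)
    (hc : ∀ δ, |δ| < ρ → ∃ z', S.chain n (k, t + δ) z') :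
    ∃ k' t', ∀ δ, |δ| < ρ → S.chain n (k, t + δ) (k', t' + (-1) ^ n * δ) := by
  obtain ⟨⟨k', t'⟩, h0⟩ := hc 0 (by simpa using hρ)
  refine ⟨k', t', ?_⟩
  set D : Set ℝ := {δ | S.chain n (k, t + δ) (k', t' + (-1) ^ n * δ)} with hDdef
  set D' : Set ℝ := {δ | ∃ z', S.chain n (k, t + δ) z' ∧ z' ≠ (k', t' + (-1) ^ n * δ)} with hD'def
  have hDo : IsOpen D := by
    rw [Metric.isOpen_iff]
    intro δ0 h
    obtain ⟨ε, hε, h1⟩ := hD κ S n k k' (t + δ0) (t' + (-1) ^ n * δ0) h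
    refine ⟨ε, hε, fun δ hδ => ?_⟩
    have h2 := h1 (δ - δ0) (by simpa [Real.dist_eq] using hδ)
    have e1 : t + δ0 + (δ - δ0) = t + δ := by ring
    have e2 : t' + (-1) ^ n * δ0 + (-1) ^ n * (δ - δ0) = t' + (-1) ^ n * δ := by ring
    rw [e1, e2] at h2
    exact h2
  have hD'o : IsOpen D' := by
    rw [Metric.isOpen_iff]
    rintro δ0 ⟨⟨k1, t1⟩, h, hne⟩
    obtain ⟨ε, hε, h1⟩ := hD κ S n k k1 (t + δ0) t1 h
    refine ⟨ε, hε, fun δ hδ => ?_⟩
    have h2 := h1 (δ - δ0) (by simpa [Real.dist_eq] using hδ)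
    have e1 : t + δ0 + (δ - δ0) = t + δ := by ring
    rw [e1] at h2
    refine ⟨_, h2, fun h3 => hne ?_⟩
    have h4 := Prod.ext_iff.1 h3
    refine Prod.ext h4.1 ?_
    have h5 : t1 + (-1) ^ n * (δ - δ0) = t' + (-1) ^ n * δ := h4.2
    show t1 = t' + (-1) ^ n * δ0
    linarith
  have hpre : IsPreconnected (Ioo (-ρ) ρ) := isPreconnected_Ioo
  have hsub : Ioo (-ρ) ρ ⊆ D ∪ D' := by
    intro δ hδ
    obtain ⟨z', hz'⟩ := hc δ (abs_lt.2 hδ)
    by_cases h : z' = (k', t' + (-1) ^ n * δ)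
    · left
      rw [h] at hz'
      exact hz'
    · right
      exact ⟨z', hz', h⟩
  have hdis : Ioo (-ρ) ρ ∩ (D ∩ D') = ∅ := by
    ext δ
    simp only [mem_inter_iff, mem_empty_iff_false, iff_false, not_and]
    rintro - h1 ⟨z', h2, h3⟩
    exact h3 (hB κ S n _ _ _ h2 h1)
  have h0D : (Ioo (-ρ) ρ ∩ D).Nonempty := by
    refine ⟨0, ⟨by linarith, hρ⟩, ?_⟩
    show S.chain n (k, t + 0) (k', t' + (-1) ^ n * 0)
    rw [mul_zero, add_zero t']
    exact h0
  intro δ hδ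
  have h1 : Ioo (-ρ) ρ ⊆ D := by
    by_contra hcon
    rw [Set.not_subset] at hcon
    obtain ⟨δ1, hδ1, hn⟩ := hcon
    have h2 : (Ioo (-ρ) ρ ∩ D').Nonempty := ⟨δ1, hδ1, (hsub hδ1).resolve_left hn⟩
    have h3 := hpre D D' hDo hD'o hsub h0D h2
    rw [hdis] at h3
    exact Set.not_nonempty_empty h3
  exact h1 (abs_lt.1 hδ)

/-- pigeonhole: a sequence in finitely many bounded intervals has two close terms -/
lemma pigeon [Finite κ] (a b : κ → ℝ) (kn : ℕ → κ) (tn : ℕ → ℝ)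
    (h : ∀ n, a (kn n) < tn n ∧ tn n < b (kn n)) (ρ : ℝ) (hρ : 0 < ρ) :
    ∃ n m, n < m ∧ kn n = kn m ∧ |tn n - tn m| < ρ := by
  obtain ⟨M, hM⟩ : ∃ M : ℝ, ∀ k, |a k| ≤ M ∧ |b k| ≤ M := by
    have := Fintype.ofFinite κ
    refine ⟨∑ k, (|a k| + |b k|), fun k => ⟨?_, ?_⟩⟩
    · calc |a k| ≤ |a k| + |b k| := by linarith [abs_nonneg (b k)]
        _ ≤ _ := Finset.single_le_sum (f := fun k => |a k| + |b k|)
            (fun i _ => by positivity) (Finset.mem_univ k)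
    · calc |b k| ≤ |a k| + |b k| := by linarith [abs_nonneg (a k)]
        _ ≤ _ := Finset.single_le_sum (f := fun k => |a k| + |b k|)
            (fun i _ => by positivity) (Finset.mem_univ k)
  have hfl : ∀ n, ⌊tn n / ρ⌋ ∈ Finset.Icc ⌊-M / ρ⌋ ⌊M / ρ⌋ := by
    intro n
    have h1 := h n
    have h2 := hM (kn n)
    rw [Finset.mem_Icc]
    constructor
    · apply Int.floor_le_floor
      apply div_le_div_of_nonneg_right _ hρ.le
      have := (abs_le.1 h2.1).1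
      linarith
    · apply Int.floor_le_floor
      apply div_le_div_of_nonneg_right _ hρ.le
      have := (abs_le.1 h2.2).2
      linarith
  have hni : ¬ Function.Injective (fun n : ℕ => ((kn n, ⟨⌊tn n / ρ⌋, hfl n⟩) :
      κ × {x // x ∈ Finset.Icc ⌊-M / ρ⌋ ⌊M / ρ⌋})) := by
    intro hinj
    exact not_injective_infinite_finite _ hinj
  rw [Function.Injective] at hni
  push_neg at hni
  obtain ⟨n, m, he, hne⟩ := hni
  have h1 := Prod.ext_iff.1 he
  have h2 : kn n = kn m := h1.1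
  have h3 : ⌊tn n / ρ⌋ = ⌊tn m / ρ⌋ := congrArg Subtype.val h1.2
  have h4 : |tn n - tn m| < ρ := by
    have := Int.abs_sub_lt_one_of_floor_eq_floor h3
    rw [← sub_div, abs_div, abs_of_pos hρ, div_lt_one hρ] at this
    exact this
  rcases lt_or_gt_of_ne hne with h5 | h5
  · exact ⟨n, m, h5, h2, h4⟩
  · exact ⟨m, n, h5, h2.symm, by rw [abs_sub_comm]; exact h4⟩

theorem a2 : T_A1a → T_A1b → T_A1c → T_A1d → T_A2 := by
  intro hA hB hC hD κ _ S k t ρ hρ hen hch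
  have h1 : ∀ n, ∃ k' t', ∀ δ, |δ| < ρ → S.chain n (k, t + δ) (k', t' + (-1) ^ n * δ) :=
    fun n => step1 hB hD S k t ρ hρ n (fun δ hδ => hch δ hδ n)
  choose kn tn hkt using h1
  have h0 : ∀ n, S.chain n (k, t) (kn n, tn n) := by
    intro n
    have := hkt n 0 (by simpa using hρ)
    rw [mul_zero, add_zero, add_zero] at this
    exact this
  have hmem : ∀ n, S.a (kn n) < tn n ∧ tn n < S.b (kn n) := by
    intro n
    rcases n with _ | n
    · have h2 : (k, t) = (kn 0, tn 0) := h0 0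
      have h3 := S.en_mem (k, t + 0) (hen 0 (by simpa using hρ))
      rw [add_zero, h2] at h3
      exact h3
    · obtain ⟨y, -, hy⟩ := chain_last hA S n _ _ (h0 (n + 1))
      exact (S.st_mem _ _ hy).2
  obtain ⟨n, m, hnm, hk, ht⟩ := pigeon S.a S.b kn tn hmem ρ hρ
  have hδ : |(-1) ^ n * (tn m - tn n)| < ρ := by
    rw [abs_mul, abs_pow, abs_neg, abs_one, one_pow, one_mul, abs_sub_comm]
    exact ht
  have h2 := hkt n _ hδ
  have e1 : tn n + (-1) ^ n * ((-1) ^ n * (tn m - tn n)) = tn m := by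
    rw [← mul_assoc, pow_mul_self]
    ring
  rw [e1, hk] at h2
  have h3 := h0 m
  rw [show m = (m - n) + n by omega] at h3
  obtain ⟨y, h4, h5⟩ := (hA κ S (m - n) n _ _).1 h3
  rw [show (m - n) + n = m by omega] at h5
  have h6 : y = (k, t + (-1) ^ n * (tn m - tn n)) := hC κ S n _ _ _ h5 h2
  rw [h6, show m - n = (m - n - 1) + 1 by omega] at h4
  obtain ⟨x, -, hx⟩ := chain_last hA S _ _ _ h4
  exact S.en_st _ _ (hen _ hδ) hx

end Pool.Agent.H59.BL.A2
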