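import Pool.Agent.H93.BL.Targets

/-!
Orbits outside an invariant set (module M9 of bl_modules).
-/

namespace Pool.Agent.H59.BL.M9

open MeasureTheory Set Pool.Agent.H93.BL

theorem m9 : T_M7 → T_M8 → T_CD → T_B3 → T_M9 := by
  intro hM7 hM8 hCD hB3 ι _ P E X hX hE i
  have hnull : ∀ i, P.liouville i (({z | ¬ ((∃ z', P.Step (i, z) z' ∧ z'.2 ∈ X z'.1) ↔
      z ∈ X i)} ∪ {z | i ∈ E ∧ z ∉ X i}) ∪ {z | P.dir (i, z) ∈ P.DDp}) = 0 := by
    intro i
    rw [measure_union_null_iff, measure_union_null_iff]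
    refine ⟨⟨ae_iff.1 (hX i), ?_⟩, hM8 ι P P.DDp (hCD ι P).1 i⟩
    by_cases hi : i ∈ E
    · exact measure_mono_null (fun z hz => hz.2) (hE i hi)
    · have : {z | i ∈ E ∧ z ∉ X i} = ∅ := by
        ext z
        simp [hi]
      rw [this, measure_empty]
  filter_upwards [hM7 ι P _ hnull i] with z hz hzX
  obtain ⟨f, hf0, hf⟩ := hz
  have key : ∀ n, (f (n + 1)).2 ∈ X (f (n + 1)).1 ↔ (f n).2 ∈ X (f n).1 := by
    intro n
    have h1 := (hf n).2
    simp only [mem_union, mem_setOf_eq, not_or, not_not] at h1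
    have h2 := h1.1.1
    constructor
    · intro h
      exact h2.1 ⟨f (n + 1), (hf n).1, h⟩
    · intro h
      obtain ⟨z', hz', hz''⟩ := h2.2 h
      have h3 : z' = f (n + 1) := (hB3 ι P (f n) z' (f (n + 1))).1 hz' (hf n).1
      rw [← h3]
      exact hz''
  have hall : ∀ n : ℤ, (f n).2 ∉ X (f n).1 := by
    intro n
    induction n using Int.induction_on with
    | zero => rw [hf0]; exact hzX
    | succ n ih =>
      rw [key]
      exact ih
    | pred n ih =>
      rw [← key]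
      rw [show (-(n : ℤ) - 1 + 1) = -(n : ℤ) by ring]
      exact ih
  refine ⟨f, hf0, fun n => ⟨(hf n).1, hall n, ?_, ?_⟩⟩
  · intro h
    exact (hf n).2 (Or.inl (Or.inr ⟨h, hall n⟩))
  · intro h
    exact (hf n).2 (Or.inr h)

end Pool.Agent.H59.BL.M9
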